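import Pool.Agent.Helper24.HW.Stmts

namespace Pool.Agent.Helper71.HW

open Equiv Equiv.Perm Pool.Agent.Helper24.HW Pool.Agent.Helper24.HWPub Pool.Agent.Helper98.Gn

theorem CM (h0 : ST_C0) (hK : ST_CK) (hS : ST_CST) (hP : ST_CP) : ST_CM := by
  intro k j m _ h hm1 hmk hpar
  set c : ℕ → ℕ := fun t => cyc (rot k j t * h.toPerm (ngf k j)) with hc
  have a0 : c 0 ≤ 2 := h0 k j h
  have aK : k ≤ c k + 1 := hK k j h
  have aS : ∀ t, c (t + 1) ≤ c t + 2 := fun t => hS k j t h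
  have aP : ∀ t, c t % 2 = k % 2 := fun t => hP k j t h
  have hex : ∃ t, m ≤ c t := by
    refine ⟨k, ?_⟩
    have := aP k
    omega
  classical
  obtain ⟨t, ht, hmin⟩ : ∃ t, m ≤ c t ∧ ∀ s < t, ¬ m ≤ c s :=
    ⟨Nat.find hex, Nat.find_spec hex, fun s hs => Nat.find_min hex hs⟩
  refine ⟨t, ?_⟩
  show c t = m
  rcases t with _ | s
  · have := aP 0
    omega
  · have b1 := hmin s (Nat.lt_succ_self s)
    have b2 := aS s
    have b3 := aP s
    have b4 := aP (s + 1)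
    omega

end Pool.Agent.Helper71.HW
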